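import Mathlib
set_option maxHeartbeats 400000
open Filter Topology Finset
namespace Pool.Agent.H.MP_8a0632_lc

section scale
variable (f : ℕ → ℝ)

noncomputable def F (N : ℕ) : ℝ := ∑ i ∈ range N, f i

noncomputable def sc (i : ℕ) : ℕ := Nat.log 2 ⌊F f (i+1)⌋₊

noncomputable def rho (B : Set ℕ) (N : ℕ) : ℝ := (∑ i ∈ range N, B.indicator f i) / F f N

variable {f}

lemma F_mono (h0 : ∀ i, 0 ≤ f i) {a b : ℕ} (h : a ≤ b) : F f a ≤ F f b :=
  Finset.sum_le_sum_of_subset_of_nonneg (Finset.range_mono h) (fun i _ _ => h0 i)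

lemma F_lt (i : ℕ) : F f (i+1) < 2 ^ (sc f i + 1) := by
  have h1 : ⌊F f (i+1)⌋₊ < 2 ^ (sc f i + 1) := Nat.lt_pow_succ_log_self (by norm_num) _
  have h2 : F f (i+1) < (⌊F f (i+1)⌋₊ : ℝ) + 1 := Nat.lt_floor_add_one _
  have h3 : ((⌊F f (i+1)⌋₊ + 1 : ℕ) : ℝ) ≤ ((2 ^ (sc f i + 1) : ℕ) : ℝ) := by exact_mod_cast h1
  push_cast at h3
  linarith

lemma sum_le_F (h0 : ∀ i, 0 ≤ f i) (S : Finset ℕ) (a : ℕ) (h : ∀ i ∈ S, i ≤ a) :
    ∑ i ∈ S, f i ≤ F f (a+1) :=
  Finset.sum_le_sum_of_subset_of_nonneg (fun i hi => by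
    have := h i hi
    simp; omega) (fun i _ _ => h0 i)

lemma scale_sum (h0 : ∀ i, 0 ≤ f i) (S : Finset ℕ) (k : ℕ) (h : ∀ i ∈ S, sc f i = k) :
    ∑ i ∈ S, f i ≤ 2 ^ (k+1) := by
  rcases S.eq_empty_or_nonempty with rfl | hne
  · simp
  · have h1 := sum_le_F h0 S (S.max' hne) (fun i hi => S.le_max' i hi)
    have h2 := F_lt (f := f) (S.max' hne)
    rw [h _ (S.max'_mem hne)] at h2
    linarith

lemma small_of_scales (h0 : ∀ i, 0 ≤ f i) (S : Finset ℕ) (e : ℝ) (he : 0 ≤ e)
    (h : ∀ k, ∑ i ∈ S with sc f i = k, f i ≤ e * 2 ^ k) (N : ℕ) (hN : 1 ≤ F f N) :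
    ∑ i ∈ S with i < N, f i ≤ 2 * e * F f N := by
  classical
  set K := Nat.log 2 ⌊F f N⌋₊ with hK
  have hfl : ⌊F f N⌋₊ ≠ 0 := by
    have : 1 ≤ ⌊F f N⌋₊ := Nat.le_floor (by simpa using hN)
    omega
  have hK2 : (2:ℝ) ^ K ≤ F f N := by
    have h1 : 2 ^ K ≤ ⌊F f N⌋₊ := Nat.pow_log_le_self 2 hfl
    have h2 : (⌊F f N⌋₊ : ℝ) ≤ F f N := Nat.floor_le (by linarith)
    have h3 : ((2 ^ K : ℕ) : ℝ) ≤ (⌊F f N⌋₊ : ℝ) := by exact_mod_cast h1
    push_cast at h3
    linarith
  have hmap : ∀ i ∈ S.filter (· < N), sc f i ∈ range (K+1) := by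
    intro i hi
    have hi2 : i < N := (Finset.mem_filter.mp hi).2
    have : F f (i+1) ≤ F f N := F_mono h0 (by omega)
    have h2 : sc f i ≤ K := Nat.log_mono_right (Nat.floor_mono this)
    simp; omega
  rw [← Finset.sum_fiberwise_of_maps_to hmap]
  have hg : ∑ k ∈ range (K+1), (2:ℝ) ^ k ≤ 2 * 2 ^ K := by
    rw [geom_sum_eq (by norm_num)]
    norm_num
    rw [pow_succ]; linarith
  calc ∑ k ∈ range (K+1), ∑ i ∈ (S.filter (· < N)) with sc f i = k, f i
      ≤ ∑ k ∈ range (K+1), e * 2 ^ k := by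
        refine Finset.sum_le_sum fun k _ => le_trans ?_ (h k)
        refine Finset.sum_le_sum_of_subset_of_nonneg ?_ (fun i _ _ => h0 i)
        intro i hi
        simp only [Finset.mem_filter] at hi ⊢
        exact ⟨hi.1.1, hi.2⟩
    _ = e * ∑ k ∈ range (K+1), (2:ℝ) ^ k := by rw [Finset.mul_sum]
    _ ≤ e * (2 * 2 ^ K) := mul_le_mul_of_nonneg_left hg he
    _ ≤ 2 * e * F f N := by nlinarith

lemma union_null (h0 : ∀ i, 0 ≤ f i) (hF : Tendsto (F f) atTop atTop) (S : ℕ → Finset ℕ)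
    (h : ∀ j k, ∑ i ∈ S j with sc f i = k, f i ≤ (1/2) ^ j * 2 ^ k) :
    Tendsto (rho f {i | ∃ j, i ∈ S j}) atTop (𝓝 0) := by
  classical
  have hev : ∀ᶠ N in atTop, 1 ≤ F f N := hF.eventually_ge_atTop 1
  set g : ℕ → ℕ → ℝ := fun N j => (∑ i ∈ S j with i < N, f i) / F f N with hg
  have hsum : Summable (fun j : ℕ => 2 * ((1/2:ℝ) ^ j)) := summable_geometric_two.mul_left 2
  have hb : ∀ N, 1 ≤ F f N → ∀ j, ‖g N j‖ ≤ 2 * ((1/2:ℝ) ^ j) := by
    intro N hN j
    have h1 := small_of_scales h0 (S j) _ (by positivity) (h j) N hN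
    have h2 : 0 ≤ ∑ i ∈ S j with i < N, f i := Finset.sum_nonneg fun i _ => h0 i
    rw [Real.norm_eq_abs, abs_of_nonneg (div_nonneg h2 (by linarith)), div_le_iff₀ (by linarith)]
    exact h1
  have hlim : Tendsto (fun N => ∑' j, g N j) atTop (𝓝 (∑' _ : ℕ, (0:ℝ))) := by
    refine tendsto_tsum_of_dominated_convergence hsum ?_ (hev.mono hb)
    intro j
    have h1 : Tendsto (fun N => (∑ i ∈ S j, f i) / F f N) atTop (𝓝 0) :=
      tendsto_const_nhds.div_atTop hF
    refine h1.congr' ?_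
    filter_upwards [eventually_gt_atTop ((S j).sup id)] with N hN
    simp only [hg]
    rw [Finset.filter_true_of_mem]
    intro i hi
    exact lt_of_le_of_lt (Finset.le_sup (f := id) hi) hN
  rw [tsum_zero] at hlim
  refine tendsto_of_tendsto_of_tendsto_of_le_of_le' tendsto_const_nhds hlim ?_ ?_
  · filter_upwards [hev] with N hN
    exact div_nonneg (Finset.sum_nonneg fun i _ => Set.indicator_nonneg (fun i _ => h0 i) i)
      (by linarith)
  · filter_upwards [hev] with N hN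
    have hsg : Summable (g N) := Summable.of_norm_bounded hsum (hb N hN)
    have hgn : ∀ j, 0 ≤ g N j := fun j =>
      div_nonneg (Finset.sum_nonneg fun i _ => h0 i) (by linarith)
    have hch : ∀ i, ∃ j, (∃ j', i ∈ S j') → i ∈ S j := by
      intro i
      by_cases hi : ∃ j', i ∈ S j'
      · obtain ⟨j, hj⟩ := hi
        exact ⟨j, fun _ => hj⟩
      · exact ⟨0, fun h => absurd h hi⟩
    choose c hc using hch
    refine le_trans ?_ (hsg.sum_le_tsum ((range N).image c) (fun j _ => hgn j))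
    simp only [rho, hg]
    rw [← Finset.sum_div]
    refine div_le_div_of_nonneg_right ?_ (by linarith)
    rw [← Finset.sum_fiberwise_of_maps_to (s := range N) (t := (range N).image c) (g := c)
      (fun i hi => Finset.mem_image_of_mem c hi)]
    refine Finset.sum_le_sum fun j _ => ?_
    simp only [Set.indicator_apply]
    rw [← Finset.sum_filter]
    refine Finset.sum_le_sum_of_subset_of_nonneg ?_ (fun i _ _ => h0 i)
    intro i hi
    simp only [Finset.mem_filter, Finset.mem_range, Set.mem_ofPred_eq] at hi ⊢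
    exact ⟨hi.1.2 ▸ hc i hi.2, hi.1.1⟩

lemma union_pos (h0 : ∀ i, 0 ≤ f i) (B : Set ℕ) (hB : Tendsto (rho f B) atTop (𝓝 0))
    (e : ℝ) (he : 0 < e) : ∃ N, ∀ (S : Finset ℕ) (k : ℕ), (∀ i ∈ S, i ∈ B ∧ sc f i = k) →
      (∃ i ∈ S, N ≤ i) → ∑ i ∈ S, f i < e * 2 ^ k := by
  classical
  obtain ⟨N, hN⟩ := eventually_atTop.mp (hB.eventually (gt_mem_nhds (show (0:ℝ) < e / 2 by linarith)))
  refine ⟨N, fun S k hS ⟨i0, hi0, hi1⟩ => ?_⟩
  have hne : S.Nonempty := ⟨i0, hi0⟩
  set a := S.max' hne with ha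
  have haN : N ≤ a + 1 := le_trans hi1 (le_trans (S.le_max' i0 hi0) (by omega))
  have h1 := hN _ haN
  have h2 := F_lt (f := f) a
  rw [(hS _ (S.max'_mem hne)).2] at h2
  have h3 := sum_le_F h0 S a (fun i hi => S.le_max' i hi)
  have h4 : ∑ i ∈ S, f i ≤ ∑ i ∈ range (a+1), B.indicator f i := by
    calc ∑ i ∈ S, f i = ∑ i ∈ S, B.indicator f i :=
          Finset.sum_congr rfl fun i hi => (Set.indicator_of_mem (hS i hi).1 f).symm
      _ ≤ _ := by
          refine Finset.sum_le_sum_of_subset_of_nonneg ?_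
            (fun i _ _ => Set.indicator_nonneg (fun i _ => h0 i) i)
          intro i hi
          have := S.le_max' i hi
          simp; omega
  by_contra hcon
  push Not at hcon
  have hp : 0 < e * 2 ^ k := by positivity
  have hFp : 0 < F f (a+1) := by linarith
  simp only [rho] at h1
  rw [div_lt_iff₀ hFp] at h1
  rw [pow_succ] at h2
  nlinarith

end scale

section grid
open Classical in
def Lines (m : ℕ → ℕ) (Q : ℕ → Bool → ℕ → ℕ → ℕ) (B : Set ℕ) : Prop :=
  ∀ d : ℝ, 0 < d → ∀ᶠ n in atTop, ∀ b, ∀ r < m n,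
    (#{t ∈ range (m n) | Q n b r t ∈ B} : ℝ) ≤ d * m n

variable {f : ℕ → ℝ} {m : ℕ → ℕ} {Q : ℕ → Bool → ℕ → ℕ → ℕ}

lemma U1 (h0 : ∀ i, 0 ≤ f i) (hF : Tendsto (F f) atTop atTop)
    (hi : ∀ n b r, Function.Injective (Q n b r))
    (H : ∀ B, Tendsto (rho f B) atTop (𝓝 0) → Lines m Q B) (d : ℝ) (hd : 0 < d) :
    ∃ e : ℝ, 0 < e ∧ ∀ᶠ n in atTop, ∀ b, ∀ r < m n, ∀ T ⊆ range (m n), d * m n < #T →
      ∃ k, e * 2 ^ k < ∑ t ∈ T with sc f (Q n b r t) = k, f (Q n b r t) := by
  classical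
  by_contra hcon
  have h1 : ∀ j : ℕ, ∃ n ≥ j, ∃ b, ∃ r < m n, ∃ T ⊆ range (m n), d * m n < #T ∧
      ∀ k, ∑ t ∈ T with sc f (Q n b r t) = k, f (Q n b r t) ≤ (1/2) ^ j * 2 ^ k := by
    intro j
    by_contra h2
    push Not at h2
    exact hcon ⟨(1/2)^j, by positivity, eventually_atTop.mpr ⟨j, h2⟩⟩
  choose n hn b r hr T hT hd2 hk using h1
  have h2 := union_null h0 hF (fun j => (T j).image (Q (n j) (b j) (r j))) (by
    intro j k
    refine le_trans (le_of_eq ?_) (hk j k)
    rw [Finset.filter_image, Finset.sum_image (fun x _ y _ h => hi _ _ _ h)])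
  obtain ⟨N, hN⟩ := eventually_atTop.mp (H _ h2 d hd)
  have h3 := hN (n N) (hn N) (b N) (r N) (hr N)
  have h4 := hd2 N
  have h5 := lt_of_le_of_lt h3 h4
  have h6 := (Nat.cast_lt (α := ℝ)).mp h5
  refine absurd h6 (not_lt.mpr (Finset.card_le_card ?_))
  intro t ht
  simp only [Finset.mem_filter, Set.mem_ofPred_eq]
  exact ⟨hT N ht, N, Finset.mem_image_of_mem _ ht⟩

lemma U2 (h0 : ∀ i, 0 ≤ f i)
    (hi : ∀ n b r, Function.Injective (Q n b r))
    (hn : ∀ n b r t n' b' r' t', Q n b r t = Q n' b' r' t' → n = n')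
    (H : ∀ B, Lines m Q B → Tendsto (rho f B) atTop (𝓝 0)) (e : ℝ) (he : 0 < e) :
    ∃ d : ℝ, 0 < d ∧ ∀ᶠ n in atTop, ∀ b r (T : Finset ℕ) k, (#T : ℝ) ≤ d * m n →
      (∀ t ∈ T, sc f (Q n b r t) = k) → ∑ t ∈ T, f (Q n b r t) < e * 2 ^ k := by
  classical
  by_contra hcon
  have h1 : ∀ j : ℕ, ∃ᶠ n in atTop, ∃ b r, ∃ (T : Finset ℕ) (k : ℕ), (#T : ℝ) ≤ 1 / ((j:ℝ)+1) * m n ∧
      (∀ t ∈ T, sc f (Q n b r t) = k) ∧ e * 2 ^ k ≤ ∑ t ∈ T, f (Q n b r t) := by
    intro j
    by_contra h2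
    rw [Filter.not_frequently] at h2
    refine hcon ⟨1 / ((j:ℝ)+1), by positivity, h2.mono ?_⟩
    intro n h3 b r T k h4 h5
    by_contra h6
    exact h3 ⟨b, r, T, k, h4, h5, not_lt.mp h6⟩
  obtain ⟨φ, hφ, h2⟩ := Filter.extraction_forall_of_frequently h1
  choose b r T k hc hs hw using h2
  set S : ℕ → Finset ℕ := fun j => (T j).image (Q (φ j) (b j) (r j)) with hS
  have hL : Lines m Q {i | ∃ j, i ∈ S j} := by
    intro d hd
    obtain ⟨j0, hj0⟩ := exists_nat_one_div_lt hd
    filter_upwards [eventually_ge_atTop (φ j0)] with n hn0 b' r' _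
    set U := {t ∈ range (m n) | Q n b' r' t ∈ {i | ∃ j, i ∈ S j}} with hU
    have key : ∀ t ∈ U, ∃ j, φ j = n ∧ Q n b' r' t ∈ S j := by
      intro t ht
      obtain ⟨j, hj⟩ := (Finset.mem_filter.mp ht).2
      obtain ⟨x, _, hx⟩ := Finset.mem_image.mp hj
      exact ⟨j, hn _ _ _ _ _ _ _ _ hx, hj⟩
    have fin : (#U : ℝ) ≤ d * m n := by
      rcases U.eq_empty_or_nonempty with h | ⟨t0, ht0⟩
      · rw [h]; simp; positivity
      · obtain ⟨j, hj, _⟩ := key t0 ht0
        have hjj : j0 ≤ j := hφ.le_iff_le.mp (hj ▸ hn0)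
        have h3 : #U ≤ #(S j) := by
          refine Finset.card_le_card_of_injOn (Q n b' r') ?_ (fun x _ y _ h => hi _ _ _ h)
          intro t ht
          obtain ⟨j', hj', h4⟩ := key t ht
          have : j' = j := hφ.injective (hj'.trans hj.symm)
          exact this ▸ h4
        have h4 : #(S j) ≤ #(T j) := Finset.card_image_le
        have h5 := hc j
        rw [hj] at h5
        have h6 : 1 / ((j:ℝ)+1) ≤ 1 / ((j0:ℝ)+1) := by
          apply one_div_le_one_div_of_le (by positivity)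
          have : (j0:ℝ) ≤ j := by exact_mod_cast hjj
          linarith
        have h7 : ((#U : ℕ) : ℝ) ≤ #(T j) := by exact_mod_cast h3.trans h4
        have h8 : (0:ℝ) ≤ m n := Nat.cast_nonneg _
        nlinarith
    convert fin
    rfl
  obtain ⟨N, hN⟩ := union_pos h0 _ (H _ hL) e he
  have hne : ∀ j, ∃ t, t ∈ T j := by
    intro j
    by_contra h3
    push Not at h3
    have h4 := hw j
    rw [Finset.eq_empty_of_forall_notMem h3] at h4
    simp at h4
    have : 0 < e * 2 ^ k j := by positivity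
    linarith
  choose a ha using hne
  have hinj : Function.Injective (fun j => Q (φ j) (b j) (r j) (a j)) :=
    fun x y h => hφ.injective (hn _ _ _ _ _ _ _ _ h)
  obtain ⟨j, hj⟩ := (hinj.nat_tendsto_atTop.eventually_ge_atTop N).exists
  have h5 := hN (S j) (k j) (by
    intro i hi'
    refine ⟨⟨j, hi'⟩, ?_⟩
    obtain ⟨x, hx, rfl⟩ := Finset.mem_image.mp hi'
    exact hs j x hx) ⟨_, Finset.mem_image_of_mem _ (ha j), hj⟩
  rw [hS, Finset.sum_image (fun x _ y _ h => hi _ _ _ h)] at h5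
  exact absurd (hw j) (not_le.mpr h5)

theorem main (h0 : ∀ i, 0 ≤ f i) (hF : Tendsto (F f) atTop atTop) (hm : Tendsto m atTop atTop)
    (hi : ∀ n b r, Function.Injective (Q n b r))
    (hi2 : ∀ n x y x' y', Q n false y x = Q n false y' x' → x = x' ∧ y = y')
    (hn : ∀ n b r t n' b' r' t', Q n b r t = Q n' b' r' t' → n = n')
    (hsym : ∀ n x y, Q n true x y = Q n false y x)
    (H : ∀ B, Tendsto (rho f B) atTop (𝓝 0) ↔ Lines m Q B) : False := by
  classical
  obtain ⟨e1, he1, hA⟩ := U1 h0 hF hi (fun B => (H B).1) (1/4) (by norm_num)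
  obtain ⟨d, hd, hB⟩ := U2 h0 hi hn (fun B => (H B).2) e1 he1
  obtain ⟨e2, he2, hC⟩ := U1 h0 hF hi (fun B => (H B).1) d hd
  have hD : ∀ᶠ n in atTop, 4 / (e2 * d) < (m n : ℝ) :=
    (tendsto_natCast_atTop_atTop.comp hm).eventually_gt_atTop _
  obtain ⟨n, hA, hB, hC, hD⟩ := (hA.and (hB.and (hC.and hD))).exists
  set M := m n with hM
  have hMp : (0:ℝ) < M := lt_trans (by positivity) hD
  let s : Bool → ℕ → ℕ → ℕ := fun b r t => sc f (Q n b r t)
  let D : Bool → ℕ → ℕ → Prop := fun b r k => d * M < (#{t ∈ range M | s b r t = k} : ℝ)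
  have sparse : ∀ b, ∀ r < M, (#{t ∈ range M | ¬ D b r (s b r t)} : ℝ) ≤ 1/4 * M := by
    intro b r hr
    by_contra h1
    obtain ⟨k, hk⟩ := hA b r hr _ (Finset.filter_subset _ _) (not_le.mp h1)
    refine absurd hk (not_lt.mpr (le_of_lt (hB b r _ k ?_ ?_)))
    · by_cases hD : D b r k
      · rw [Finset.filter_filter, Finset.filter_false_of_mem]
        · simp; positivity
        · rintro t _ ⟨h2, h3⟩
          exact h2 (by simpa only [s, h3] using hD)
      · refine le_trans ?_ (not_lt.mp hD)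
        refine Nat.cast_le.mpr (Finset.card_le_card ?_)
        intro t ht
        simp only [Finset.mem_filter] at ht ⊢
        exact ⟨ht.1.1, ht.2⟩
    · intro t ht
      exact (Finset.mem_filter.mp ht).2
  have cols : ∀ k, (#{y ∈ range M | D false y k} : ℝ) * e2 ≤ 2 := by
    intro k
    set Y := {y ∈ range M | D false y k} with hY
    have h1 : ∀ y ∈ Y, e2 * 2 ^ k ≤ ∑ t ∈ range M with s false y t = k, f (Q n false y t) := by
      intro y hy
      obtain ⟨hy1, hy2⟩ := Finset.mem_filter.mp hy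
      obtain ⟨k', hk'⟩ := hC false y (Finset.mem_range.mp hy1) _ (Finset.filter_subset _ _) hy2
      by_cases hkk : k' = k
      · subst hkk
        refine le_trans hk'.le ?_
        exact Finset.sum_le_sum_of_subset_of_nonneg (Finset.filter_subset _ _) (fun i _ _ => h0 _)
      · rw [Finset.filter_filter, Finset.filter_false_of_mem] at hk'
        · simp at hk'
          have : 0 < e2 * 2 ^ k' := by positivity
          linarith
        · rintro t _ ⟨h2, h3⟩
          exact hkk (h3.symm.trans h2)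
    have h2 : (#Y : ℝ) * (e2 * 2 ^ k) ≤ ∑ y ∈ Y, ∑ t ∈ range M with s false y t = k, f (Q n false y t) := by
      have := Finset.card_nsmul_le_sum Y _ _ h1
      simpa using this
    have h3 : ∑ y ∈ Y, ∑ t ∈ range M with s false y t = k, f (Q n false y t) ≤ 2 ^ (k+1) := by
      rw [Finset.sum_sigma']
      rw [← Finset.sum_image (f := f) (g := fun p : (_ : ℕ) × ℕ => Q n false p.1 p.2)]
      · apply scale_sum h0
        intro i hi'
        obtain ⟨p, hp, rfl⟩ := Finset.mem_image.mp hi'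
        exact (Finset.mem_filter.mp (Finset.mem_sigma.mp hp).2).2
      · rintro ⟨y, x⟩ _ ⟨y', x'⟩ _ h
        obtain ⟨rfl, rfl⟩ := hi2 _ _ _ _ _ h
        rfl
    have h4 : (0:ℝ) < 2 ^ k := by positivity
    rw [pow_succ] at h3
    nlinarith
  have rows : ∀ x, (#{y ∈ range M | D true x (s true x y) ∧ D false y (s true x y)} : ℝ) * (e2 * d) ≤ 2 := by
    intro x
    set K := ((range M).image (s true x)).filter (D true x) with hK
    have h1 : (#K : ℝ) * (d * M) ≤ M := by
      have h2 := Finset.card_nsmul_le_sum K (fun k => (#{t ∈ range M | s true x t = k} : ℝ)) (d * M)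
        (fun k hk => (Finset.mem_filter.mp hk).2.le)
      have h3 : ∑ k ∈ K, #{t ∈ range M | s true x t = k} ≤ M := by
        calc _ ≤ ∑ k ∈ (range M).image (s true x), #{t ∈ range M | s true x t = k} :=
              Finset.sum_le_sum_of_subset (Finset.filter_subset _ _)
          _ = M := by
              rw [← Finset.card_eq_sum_card_image]; simp
      have h4 : ((∑ k ∈ K, #{t ∈ range M | s true x t = k} : ℕ) : ℝ) ≤ M := by exact_mod_cast h3
      push_cast at h4
      simp only [nsmul_eq_mul] at h2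
      linarith
    have h1' : (#K : ℝ) * d ≤ 1 := by nlinarith
    have h5 : #{y ∈ range M | D true x (s true x y) ∧ D false y (s true x y)} ≤
        ∑ k ∈ K, #{y ∈ range M | D false y k} := by
      refine le_trans (Finset.card_le_card ?_) Finset.card_biUnion_le
      intro y hy
      simp only [Finset.mem_filter, Finset.mem_biUnion, hK] at hy ⊢
      exact ⟨_, ⟨Finset.mem_image_of_mem _ hy.1, hy.2.1⟩, hy.1, hy.2.2⟩
    have h6 : ((#{y ∈ range M | D true x (s true x y) ∧ D false y (s true x y)} : ℕ) : ℝ) ≤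
        ∑ k ∈ K, (#{y ∈ range M | D false y k} : ℝ) := by exact_mod_cast h5
    have h7 : (∑ k ∈ K, (#{y ∈ range M | D false y k} : ℝ)) * e2 ≤ #K * 2 := by
      rw [Finset.sum_mul]
      have := Finset.sum_le_card_nsmul K _ _ (fun k _ => cols k)
      simpa using this
    have h8 := mul_le_mul_of_nonneg_right h6 he2.le
    nlinarith
  have cover : ∀ x, (M:ℝ) ≤ #{y ∈ range M | D true x (s true x y) ∧ D false y (s true x y)} +
      #{y ∈ range M | ¬ D true x (s true x y)} + #{y ∈ range M | ¬ D false y (s false y x)} := by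
    intro x
    have h1 : range M ⊆ ({y ∈ range M | D true x (s true x y) ∧ D false y (s true x y)} ∪
      {y ∈ range M | ¬ D true x (s true x y)}) ∪ {y ∈ range M | ¬ D false y (s false y x)} := by
      intro y hy
      have : s true x y = s false y x := by simp only [s, hsym]
      simp only [Finset.mem_union, Finset.mem_filter, this]
      tauto
    have h2 := (Finset.card_le_card h1).trans ((Finset.card_union_le _ _).trans
      (Nat.add_le_add_right (Finset.card_union_le _ _) _))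
    rw [Finset.card_range] at h2
    exact_mod_cast h2
  have swap : ∑ x ∈ range M, (#{y ∈ range M | ¬ D false y (s false y x)} : ℝ) =
      ∑ y ∈ range M, (#{x ∈ range M | ¬ D false y (s false y x)} : ℝ) := by
    simp only [Finset.card_filter]
    push_cast
    exact Finset.sum_comm
  have h1 : ∑ y ∈ range M, (#{x ∈ range M | ¬ D false y (s false y x)} : ℝ) ≤ M * (1/4 * M) := by
    have := Finset.sum_le_card_nsmul (range M) _ _ (fun y hy => sparse false y (Finset.mem_range.mp hy))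
    simpa using this
  have h2 : ∀ x ∈ range M, (M:ℝ) / 4 + 1/ (e2 * d) * 0 < #{y ∈ range M | ¬ D false y (s false y x)} := by
    intro x hx
    have a1 := cover x
    have a2 := sparse true x (Finset.mem_range.mp hx)
    have a3 := rows x
    have a4 : 0 < e2 * d := by positivity
    rw [div_lt_iff₀ a4] at hD
    have a5 : (#{y ∈ range M | D true x (s true x y) ∧ D false y (s true x y)} : ℝ) < M / 2 := by
      by_contra a6
      push Not at a6
      nlinarith
    linarith
  have h3 := Finset.sum_lt_sum_of_nonempty (s := range M)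
    (Finset.nonempty_range_iff.mpr (by
      have : 0 < M := by exact_mod_cast hMp
      omega)) h2
  rw [swap] at h3
  simp at h3
  simp at h1
  linarith

end grid

section dens
open Classical in
noncomputable def cn (A : Set ℕ) (N : ℕ) : ℕ := Nat.count (· ∈ A) N

open Classical in
noncomputable def dy (A : Set ℕ) (j : ℕ) : ℕ := Nat.count (fun t => 2 ^ j + t ∈ A) (2 ^ j)

lemma cn_eq (A : Set ℕ) (N : ℕ) : (A ∩ Set.Iio N).ncard = cn A N := by
  classical
  rw [cn, Nat.count_eq_card_filter_range, ← Set.ncard_coe_finset]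
  congr 1
  ext i
  simp [and_comm]

lemma cn_succ (A : Set ℕ) (j : ℕ) : cn A (2 ^ (j+1)) = cn A (2 ^ j) + dy A j := by
  classical
  rw [pow_succ, mul_two, cn, Nat.count_add]
  rfl

lemma cn_mono (A : Set ℕ) {a b : ℕ} (h : a ≤ b) : cn A a ≤ cn A b := by
  classical
  exact Nat.count_monotone _ h

lemma cn_le (A : Set ℕ) (a : ℕ) : cn A a ≤ a := by
  classical
  exact Nat.count_le _

lemma dens_iff (A : Set ℕ) :
    Tendsto (fun n : ℕ => ((A ∩ Set.Iio n).ncard : ℝ) / n) atTop (𝓝 0) ↔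
      ∀ d : ℝ, 0 < d → ∀ᶠ j in atTop, (dy A j : ℝ) ≤ d * 2 ^ j := by
  simp only [cn_eq]
  constructor
  · intro h d hd
    have h1 : Tendsto (fun j : ℕ => 2 ^ (j+1)) atTop atTop :=
      (tendsto_pow_atTop_atTop_of_one_lt (by norm_num : (1:ℕ) < 2)).comp (tendsto_add_atTop_nat 1)
    filter_upwards [(h.comp h1).eventually (gt_mem_nhds (show (0:ℝ) < d / 2 by linarith))] with j hj
    simp only [Function.comp, cn_succ] at hj
    rw [div_lt_iff₀ (by positivity)] at hj
    push_cast at hj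
    have : (0:ℝ) ≤ cn A (2 ^ j) := Nat.cast_nonneg _
    rw [pow_succ] at hj
    linarith
  · intro h
    rw [Metric.tendsto_atTop]
    intro e he
    obtain ⟨j0, hj0⟩ := eventually_atTop.mp (h (e/4) (by linarith))
    have h1 : ∀ J, j0 ≤ J → (cn A (2 ^ J) : ℝ) ≤ 2 ^ j0 + e / 4 * 2 ^ J := by
      intro J hJ
      induction J, hJ using Nat.le_induction with
      | base =>
        have h2 : ((cn A (2 ^ j0) : ℕ) : ℝ) ≤ ((2 ^ j0 : ℕ) : ℝ) := Nat.cast_le.mpr (cn_le _ _)
        push_cast at h2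
        have : 0 ≤ e / 4 * 2 ^ j0 := by positivity
        linarith
      | succ J hJ ih =>
        rw [cn_succ, pow_succ]
        push_cast
        have := hj0 J hJ
        linarith
    obtain ⟨N0, hN0⟩ := exists_nat_gt (2 ^ j0 * 2 / e)
    refine ⟨max (N0 + 1) (2 ^ j0), fun N hN => ?_⟩
    have hN1 : N0 + 1 ≤ N := le_trans (le_max_left _ _) hN
    have hN2 : 2 ^ j0 ≤ N := le_trans (le_max_right _ _) hN
    have hNp : (0:ℝ) < N := by exact_mod_cast (show 0 < N by omega)
    have a1 : N < 2 ^ (Nat.log 2 N + 1) := Nat.lt_pow_succ_log_self (by norm_num) _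
    have a2 : 2 ^ Nat.log 2 N ≤ N := Nat.pow_log_le_self 2 (by omega)
    have a3 : j0 ≤ Nat.log 2 N := Nat.le_log_of_pow_le (by norm_num) hN2
    have a4 := h1 (Nat.log 2 N + 1) (by omega)
    have a5 : (cn A N : ℝ) ≤ cn A (2 ^ (Nat.log 2 N + 1)) := Nat.cast_le.mpr (cn_mono _ a1.le)
    have a6 : ((2 ^ Nat.log 2 N : ℕ) : ℝ) ≤ N := Nat.cast_le.mpr a2
    push_cast at a6
    have a7 : (N0 : ℝ) + 1 ≤ N := by exact_mod_cast hN1
    rw [div_lt_iff₀ he] at hN0
    rw [Real.dist_eq, sub_zero, abs_of_nonneg (by positivity), div_lt_iff₀ hNp]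
    have a8 := a5.trans a4
    rw [pow_succ] at a8
    nlinarith

lemma count_mod (p : ℕ → Prop) [DecidablePred p] (m c : ℕ) :
    Nat.count (fun t => p (t % m)) (m * c) = Nat.count p m * c := by
  induction c with
  | zero => simp
  | succ c ih =>
    rw [Nat.mul_succ, Nat.count_add, ih, Nat.mul_succ]
    congr 1
    simp only [Nat.count_eq_card_filter_range]
    refine congrArg _ (Finset.filter_congr ?_)
    intro t ht
    rw [Nat.mul_add_mod, Nat.mod_eq_of_lt (Finset.mem_range.mp ht)]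

def P (n : ℕ) (b : Bool) (r t : ℕ) : ℕ :=
  if b then Nat.pair n (Nat.pair r t) else Nat.pair n (Nat.pair t r)

def lv (j : ℕ) : ℕ := Nat.log 2 j - 1

def phi (i : ℕ) : ℕ :=
  P (lv (Nat.log 2 i)) ((Nat.log 2 i).testBit (lv (Nat.log 2 i)))
    (Nat.log 2 i % 2 ^ lv (Nat.log 2 i)) (i % 2 ^ lv (Nat.log 2 i))

def psi (p : ℕ) : ℕ :=
  if (p.unpair.2.unpair.1 < 2 ^ p.unpair.1 ∧ p.unpair.2.unpair.2 < 2 ^ p.unpair.1) then
    2 ^ p.unpair.1 + (p.unpair.2.unpair.1 ^^^ p.unpair.2.unpair.2) else p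

lemma lv_le (j : ℕ) : lv j ≤ j := le_trans (Nat.sub_le _ _) (Nat.log_le_self 2 j)

lemma lv_tendsto : Tendsto lv atTop atTop := by
  rw [tendsto_atTop_atTop]
  intro b
  refine ⟨2 ^ (b+1), fun a ha => ?_⟩
  have := Nat.le_log_of_pow_le (by norm_num : 1 < 2) ha
  simp only [lv]; omega

lemma P_fst (n b r t) : (P n b r t).unpair.1 = n := by
  cases b <;> simp [P]

lemma phi_fin (a : ℕ) : (phi ⁻¹' {a}).Finite := by
  have h1 : Tendsto (fun i => Nat.log 2 i) atTop atTop := by
    rw [tendsto_atTop_atTop]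
    intro b
    exact ⟨2 ^ b, fun a ha => Nat.le_log_of_pow_le (by norm_num : 1 < 2) ha⟩
  obtain ⟨N, hN⟩ := eventually_atTop.mp ((lv_tendsto.comp h1).eventually_gt_atTop a.unpair.1)
  refine (Set.finite_Iio N).subset fun i hi => ?_
  by_contra h2
  have h3 := hN i (by simpa using h2)
  have h4 : phi i = a := hi
  rw [← h4, phi, P_fst] at h3
  simp at h3

lemma psi_fin (a : ℕ) : (psi ⁻¹' {a}).Finite := by
  refine ((Set.finite_singleton a).union
    (((Set.finite_Iic a).prod ((Set.finite_Iic a).prod (Set.finite_Iic a))).image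
      (fun x => Nat.pair x.1 (Nat.pair x.2.1 x.2.2)))).subset fun p hp => ?_
  have h : psi p = a := hp
  unfold psi at h
  split_ifs at h with h1
  · right
    refine ⟨(p.unpair.1, p.unpair.2.unpair.1, p.unpair.2.unpair.2), ?_, by simp⟩
    have := Nat.lt_two_pow_self (n := p.unpair.1)
    simp only [Set.mem_prod, Set.mem_Iic]
    omega
  · left; exact h

open Classical in
lemma dy_phi (A : Set ℕ) (j : ℕ) : (dy (phi ⁻¹' A) j : ℝ) * 2 ^ lv j =
    #{t ∈ range (2 ^ lv j) | P (lv j) (j.testBit (lv j)) (j % 2 ^ lv j) t ∈ A} * 2 ^ j := by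
  obtain ⟨c, hc⟩ : 2 ^ lv j ∣ 2 ^ j := pow_dvd_pow 2 (lv_le j)
  have h1 := count_mod (fun t => P (lv j) (j.testBit (lv j)) (j % 2 ^ lv j) t ∈ A) (2 ^ lv j) c
  have h2 : dy (phi ⁻¹' A) j = Nat.count (fun t => P (lv j) (j.testBit (lv j)) (j % 2 ^ lv j)
      (t % 2 ^ lv j) ∈ A) (2 ^ lv j * c) := by
    rw [← hc, dy]
    simp only [Nat.count_eq_card_filter_range]
    refine congrArg _ (Finset.filter_congr ?_)
    intro t ht
    have h3 : Nat.log 2 (2 ^ j + t) = j := by
      rw [Nat.log_eq_iff (by right; constructor <;> simp)]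
      have := Finset.mem_range.mp ht
      constructor
      · omega
      · rw [pow_succ]; omega
    have h4 : (2 ^ j + t) % 2 ^ lv j = t % 2 ^ lv j := by
      conv_lhs => rw [hc]
      exact Nat.mul_add_mod _ _ _
    simp only [Set.mem_preimage, phi, h3, h4]
  rw [h2, h1, Nat.count_eq_card_filter_range]
  have h5 : (2:ℝ) ^ j = 2 ^ lv j * c := by exact_mod_cast hc
  rw [h5]
  push_cast
  ring

lemma phi_iff (A : Set ℕ) : (∀ d : ℝ, 0 < d → ∀ᶠ j in atTop, (dy (phi ⁻¹' A) j : ℝ) ≤ d * 2 ^ j) ↔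
    Lines (fun n => 2 ^ n) P A := by
  constructor
  · intro h d hd
    obtain ⟨N, hN⟩ := eventually_atTop.mp (h d hd)
    filter_upwards [eventually_ge_atTop N] with n hn b r hr
    set j := 2 ^ n * (2 + b.toNat) + r with hj
    have hb : b.toNat ≤ 1 := Bool.toNat_le b
    have hp : n < 2 ^ n := Nat.lt_two_pow_self
    have h1 : Nat.log 2 j = n + 1 := by
      rw [Nat.log_eq_iff (by left; omega)]
      constructor
      · rw [pow_succ]; nlinarith
      · rw [pow_succ, pow_succ]; nlinarith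
    have h2 : lv j = n := by simp [lv, h1]
    have h3 : j % 2 ^ n = r := by rw [hj, Nat.mul_add_mod, Nat.mod_eq_of_lt hr]
    have h4 : j.testBit n = b := by
      rw [Nat.testBit_eq_decide_div_mod_eq, hj, Nat.mul_add_div (by positivity),
        Nat.div_eq_of_lt hr]
      cases b <;> simp
    have h5 := dy_phi A j
    rw [h2, h3, h4] at h5
    have h6 := hN j (by nlinarith)
    have h7 : (0:ℝ) < 2 ^ j := by positivity
    have h8 : (0:ℝ) < 2 ^ n := by positivity
    push_cast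
    nlinarith
  · intro h d hd
    filter_upwards [lv_tendsto.eventually (h d hd)] with j hj
    have h1 := hj (j.testBit (lv j)) (j % 2 ^ lv j) (Nat.mod_lt _ (by positivity))
    have h5 := dy_phi A j
    have h7 : (0:ℝ) < 2 ^ j := by positivity
    have h8 : (0:ℝ) < 2 ^ lv j := by positivity
    push_cast at h1
    nlinarith

open Classical in
lemma psi_cnt (B : Set ℕ) (n : ℕ) (b : Bool) (r : ℕ) (hr : r < 2 ^ n) :
    #{t ∈ range (2 ^ n) | P n b r t ∈ psi ⁻¹' B} = dy B n := by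
  rw [dy, Nat.count_eq_card_filter_range]
  have h1 : ∀ t < 2 ^ n, psi (P n b r t) = 2 ^ n + (r ^^^ t) := by
    intro t ht
    cases b <;> simp [psi, P, hr, ht, Nat.xor_comm]
  refine Finset.card_bij' (fun t _ => r ^^^ t) (fun t _ => r ^^^ t) ?_ ?_ ?_ ?_
  · intro t ht
    simp only [Finset.mem_filter, Finset.mem_range, Set.mem_preimage] at ht ⊢
    exact ⟨Nat.xor_lt_two_pow hr ht.1, h1 t ht.1 ▸ ht.2⟩
  · intro t ht
    simp only [Finset.mem_filter, Finset.mem_range, Set.mem_preimage] at ht ⊢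
    refine ⟨Nat.xor_lt_two_pow hr ht.1, ?_⟩
    rw [h1 _ (Nat.xor_lt_two_pow hr ht.1), Nat.xor_xor_cancel_left]
    exact ht.2
  · intro t _; simp
  · intro t _; simp

lemma psi_iff (B : Set ℕ) : Lines (fun n => 2 ^ n) P (psi ⁻¹' B) ↔
    (∀ d : ℝ, 0 < d → ∀ᶠ j in atTop, (dy B j : ℝ) ≤ d * 2 ^ j) := by
  constructor
  · intro h d hd
    filter_upwards [h d hd] with n hn
    have := hn true 0 (by positivity)
    rw [psi_cnt B n true 0 (by positivity)] at this
    exact_mod_cast this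
  · intro h d hd
    filter_upwards [h d hd] with n hn b r hr
    rw [psi_cnt B n b r hr]
    exact_mod_cast hn

end dens
end Pool.Agent.H.MP_8a0632_lc
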